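import Pool.Agent.H95.FT.Dens

namespace Pool.Agent.Results.MP_470117_nt.AlmostAllQ

/-- For every fixed prime `p`, the divisibility of the Feit-Thompson conjecture fails for almost all
primes `q`: the primes `q` with `p < q ≤ x` for which `(q^p - 1)/(q - 1)` divides
`(p^q - 1)/(p - 1)` form a proportion tending to zero of all primes up to `x`. -/
theorem result (p : ℕ) (hp : p.Prime) :
    Filter.Tendsto (fun x : ℕ =>
      (((Finset.Icc 1 x).filter (fun q : ℕ => q.Prime ∧ p < q ∧
        (q ^ p - 1) / (q - 1) ∣ (p ^ q - 1) / (p - 1))).card : ℝ) / (Nat.primeCounting x : ℝ))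
      Filter.atTop (nhds 0) := by
  refine (FTDens.main hp).congr fun x => ?_
  congr 2

end Pool.Agent.Results.MP_470117_nt.AlmostAllQ
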