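import Pool.Agent.H24.LJ.Jump

/-!
The jump inequality for primes in EVERY interval: for all `M` and `N`, on average over
`n ∈ (M, M + N]` the normalised count `H ↦ π(n, H) log N / H` makes at most
`C (1 + log N / h) / δ ^ 2` jumps of size `δ` as `H` runs from `h` to `N`.
-/

namespace Pool.Agent.H24.Old.JumpsEveryInterval

/-- There is an absolute constant `C` such that for all `M`, `N ≥ 2`, `1 ≤ h ≤ N` and `δ > 0`: if for
every integer `n ∈ (M, M + N]` there are integers `h ≤ H 0 < H 1 < ... < H (J n) ≤ N` such that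
`|π(n, H (i + 1)) log N / H (i + 1) - π(n, H i) log N / H i| ≥ δ` for all `i < J n`, then
`∑ J n ≤ C (1 + log N / h) / δ ^ 2 * N`. Here `π(n, H)` is the number of primes in `(n, n + H]`. -/
theorem result : ∃ C : ℝ, 0 < C ∧ ∀ M N h : ℕ, 2 ≤ N → 1 ≤ h → h ≤ N → ∀ δ : ℝ, 0 < δ →
    ∀ J : ℕ → ℕ,
    (∀ n : ℕ, M < n → n ≤ M + N → ∃ H : ℕ → ℕ, h ≤ H 0 ∧ H (J n) ≤ N ∧
      ∀ i < J n, H i < H (i + 1) ∧
        δ ≤ |(((Finset.Ioc n (n + H (i + 1))).filter Nat.Prime).card : ℝ) * Real.log N /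
            H (i + 1) -
          (((Finset.Ioc n (n + H i)).filter Nat.Prime).card : ℝ) * Real.log N / H i|) →
    ∑ n ∈ Finset.Ioc M (M + N), (J n : ℝ) ≤ C * (1 + Real.log N / h) / δ ^ 2 * N :=
  Pool.Agent.H24.LJ.jumps_loc

end Pool.Agent.H24.Old.JumpsEveryInterval
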